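import Pool.Agent.helper23.HS.Main
import Pool.Agent.helper23.HS.Meas
import Pool.Agent.helper23.HS.Zero
import Pool.Agent.H48.HN.Big

/-!
MP_04ebea_an. Sinks of the Henon map which visit the vertical strip `|2 a x| < 2 + 2 b + ε` at most
once: outside a Borel null set of parameters, all of whose horizontal slices have Hausdorff
dimension at most `1/2`, there are only finitely many of them.
-/

namespace Pool.Agent.Results.MP_04ebea_an.OneVisitSinks

open Pool.Agent.H48.HN Pool.Agent.helper23.HS MeasureTheory Set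

/-- The sinks with at most one point in the strip `|2 a x| < 2 + 2 b + ε`. -/
def Simple (ε a b : ℝ) : Set (Set (ℝ × ℝ)) :=
  {O | IsSink a b O ∧ {p : ℝ × ℝ | p ∈ O ∧ |2 * a * p.1| < 2 + 2 * b + ε}.Subsingleton}

theorem simple_one {ε a b : ℝ} (hε : 0 < ε) (hb : 0 < b) (hb1 : b < 1) {O : Set (ℝ × ℝ)}
    (h : O ∈ Simple ε a b) : OneVisit a b (2 + 2 * b + ε) O := by
  obtain ⟨hO, hs⟩ := h
  obtain ⟨q, hq, hq2⟩ := visits hb hb1 (by linarith : 2 + 2 * b < 2 + 2 * b + ε) hO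
  exact ⟨hO, q, ⟨hq, hq2⟩, fun p hp => hs hp ⟨hq, hq2⟩⟩

theorem simple_words {ε a b : ℝ} (hε : 0 < ε) (ha : 0 < a) (hb : 0 < b)
    (h : (Simple ε a b).Infinite) : {w | a ∈ T b (2 + 2 * b + ε) w}.Infinite := by
  rcases lt_or_ge b 1 with hb1 | hb1
  · exact infinite_words ha hb hb1 (by linarith)
      (h.mono fun O hO => simple_one hε hb hb1 hO)
  · obtain ⟨O, hO⟩ := h.nonempty
    exact absurd hO.1 (no_sink hb1 O)

theorem slice_dim {ε : ℝ} (hε : 0 < ε) (b : ℝ) :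
    dimH {a : ℝ | (a, b) ∈ {q : ℝ × ℝ | {w | q ∈ T2 ε w}.Infinite}} ≤ 1 / 2 := by
  rcases lt_or_ge 0 b with hb | hb
  · refine (dimH_mono ?_).trans (slice hb (by linarith : 2 + 2 * b < 2 + 2 * b + ε))
    intro a ha
    refine Set.Infinite.mono ?_ ha
    intro w hw
    exact hw.2
  · have : {a : ℝ | (a, b) ∈ {q : ℝ × ℝ | {w | q ∈ T2 ε w}.Infinite}} = ∅ := by
      refine Set.eq_empty_of_forall_notMem ?_
      intro a ha
      obtain ⟨w, hw⟩ := Set.Infinite.nonempty ha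
      exact absurd hw.1 (not_lt.2 hb)
    rw [this, dimH_empty]
    exact zero_le

theorem result (ε : ℝ) (hε : 0 < ε) :
    ∃ N : Set (ℝ × ℝ), MeasurableSet N ∧ volume N = 0 ∧
      (∀ b : ℝ, dimH {a : ℝ | (a, b) ∈ N} ≤ 1 / 2) ∧
      ∀ a b : ℝ, 0 < a → 0 < b → (a, b) ∉ N → (Simple ε a b).Finite := by
  refine ⟨{q : ℝ × ℝ | {w | q ∈ T2 ε w}.Infinite}, meas_inf ε, ?_, slice_dim hε, ?_⟩
  · rw [Measure.volume_eq_prod, Measure.prod_apply_symm (meas_inf ε)]
    have : ∀ b : ℝ, volume ((fun a : ℝ => (a, b)) ⁻¹'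
        {q : ℝ × ℝ | {w | q ∈ T2 ε w}.Infinite}) = 0 := fun b =>
      volume_zero_of_dimH (slice_dim hε b)
    simp only [this, lintegral_zero]
  · intro a b ha hb hN
    by_contra hf
    have hw := simple_words hε ha hb hf
    exact hN (hw.mono fun w hw => ⟨hb, hw⟩)

end Pool.Agent.Results.MP_04ebea_an.OneVisitSinks
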