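import Pool.Agent.helper23.HV.Final

/-!
MP_04ebea_an. Sinks of the Henon map which visit the thin vertical strip `|x| < (|a - 2| + b)^p`,
`p < 1`, at most once, for `(a, b)` close to `(2, 0)`: outside a Borel null set of parameters, all of
whose horizontal slices have Hausdorff dimension at most `3/4`, there are only finitely many.
-/

namespace Pool.Agent.Results.MP_04ebea_an.PowerStripSinks

open Pool.Agent.H48.HN MeasureTheory

/-- The sinks with at most one point in the strip `|x| < (|a - 2| + b)^p`. -/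
def Simple (p a b : ℝ) : Set (Set (ℝ × ℝ)) :=
  {O | IsSink a b O ∧ {q : ℝ × ℝ | q ∈ O ∧ |q.1| < (|a - 2| + b) ^ p}.Subsingleton}

theorem result (p : ℝ) (hp : p < 1) :
    ∃ ε > 0, ∃ N : Set (ℝ × ℝ), MeasurableSet N ∧ volume N = 0 ∧
      (∀ b : ℝ, dimH {a : ℝ | (a, b) ∈ N} ≤ 3 / 4) ∧
      ∀ a b : ℝ, |a - 2| < ε → 0 < b → b < ε → (a, b) ∉ N → (Simple p a b).Finite :=
  Pool.Agent.helper23.HV.final p hp

end Pool.Agent.Results.MP_04ebea_an.PowerStripSinks
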