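import Pool.Agent.H48.HN.Sink
import Pool.Agent.H48.HN.NoStrange

/-!
MP_04ebea_an. For `a > 0` and `b ≥ 1`, and for `0 < b < 1` and `0 < a < (1-b)^2`, the Henon map
has no strange attractor, and no attractor at all if `b ≥ 1`; the number of its sinks is one if
`b < 1` and `4 a ≠ 3 (1-b)^2`, and zero otherwise.
-/

namespace Pool.Agent.Results.MP_04ebea_an.TrivialRegion

open Pool.Agent.H48.HN

theorem result (a b : ℝ) (ha : 0 < a) (hb : 0 < b) (h : 1 ≤ b ∨ a < (1 - b) ^ 2) :
    (∀ A, ¬ IsStrangeAttractor a b A) ∧ (1 ≤ b → ∀ A, ¬ IsAttractor a b A) ∧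
      {O | IsSink a b O}.encard = if b < 1 ∧ 4 * a ≠ 3 * (1 - b) ^ 2 then 1 else 0 := by
  rcases le_or_gt 1 b with hb1 | hb1
  · refine ⟨fun A hA => no_attractor hb1 A hA.1, fun _ A hA => no_attractor hb1 A hA, ?_⟩
    rw [if_neg (fun hc => absurd hc.1 (not_lt.2 hb1)), Set.encard_eq_zero]
    exact Set.eq_empty_of_forall_notMem fun O hO => no_sink hb1 O hO
  · have hab : a < (1 - b) ^ 2 := by
      rcases h with h | h
      · linarith
      · exact h
    refine ⟨fun A => no_strange ha hb hb1 hab A, fun h1 => absurd h1 (not_le.2 hb1), ?_⟩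
    split_ifs with hc
    · obtain ⟨O, hO⟩ : ∃ O, IsSink a b O := by
        rcases lt_or_gt_of_ne hc.2 with h1 | h1
        · exact sink_fixed ha hb hb1 h1
        · exact sink_two ha hb hb1 hab h1
      rw [Set.encard_eq_one]
      refine ⟨O, Set.Subset.antisymm (fun O' hO' => ?_) (fun O' hO' => ?_)⟩
      · rw [Set.mem_singleton_iff]
        rcases sink_cases ha hb hb1 hab hO with ⟨h1, h2⟩ | ⟨h1, h2⟩ <;>
        rcases sink_cases ha hb hb1 hab hO' with ⟨h3, h4⟩ | ⟨h3, h4⟩
        · rw [h1, h3]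
        · linarith
        · linarith
        · rw [h1, h3]
      · rw [Set.mem_singleton_iff] at hO'
        rw [hO']
        exact hO
    · have heq : 4 * a = 3 * (1 - b) ^ 2 := by
        by_contra hne
        exact hc ⟨hb1, hne⟩
      rw [Set.encard_eq_zero]
      refine Set.eq_empty_of_forall_notMem fun O hO => ?_
      rcases sink_cases ha hb hb1 hab hO with ⟨-, h2⟩ | ⟨-, h2⟩ <;> linarith

end Pool.Agent.Results.MP_04ebea_an.TrivialRegion
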